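import Mathlib
import Pool.Agent.H.MP_acc005_lc.A

namespace Pool.Agent.Results.MP_acc005_lc.No

open Pool.Agent.H.MP_db33a0_lc

theorem result : ¬ ∃ L0 : Set Fm, SubClosed L0 ∧ DIP (ConsM L0) ∧
    ∀ L : Set Fm, SubClosed L → DIP (ConsM L) → ∀ Γ φ, ConsM L0 Γ φ → ConsM L Γ φ :=
  Pool.Agent.H.MP_acc005_lc.main

end Pool.Agent.Results.MP_acc005_lc.No
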